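import Pool.Agent.H30.Boxes.Good

/-!
Assembly: groups of coordinates, the boxes, disjointness, properness and 2-piercing.
-/

set_option autoImplicit false

namespace Pool.Agent.H30.Boxes

open Finset Classical

/-- A label: the number of a colouring and a pair of vectors. -/
abbrev Lab (c n2 N : ℕ) : Type := Fin N × W c n2

/-- The value set of every coordinate. -/
abbrev X (t n c n2 N G : ℕ) : Type := (Fin t → V t n) × (Fin G → Lab c n2 N) × Bool

/-- Names of boxes: group, position in the group, value. -/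
abbrev BX (t n c n2 N G : ℕ) : Type := Fin G × Fin t × X t n c n2 N G

variable {t n c n2 N G : ℕ}

/-- The box with label `w` in group `g` excludes the box with label `w'` in group `h`. -/
def bad (g h : Fin G) (w w' : W c n2) : Prop := if g < h then ¬ D w w' else D w' w

theorem bad_or (g h : Fin G) (hgh : g ≠ h) (w w' : W c n2) : bad g h w w' ∨ bad h g w' w := by
  unfold bad
  rcases lt_or_gt_of_ne hgh with h1 | h1
  · rw [if_pos h1, if_neg (not_lt_of_gt h1)]
    exact (Classical.em _).symm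
  · rw [if_neg (not_lt_of_gt h1), if_pos h1]
    exact Classical.em _

/-- Exclusion of the value `x` at coordinate `(h,l)` by a box of group `g` with label `lam`. -/
def cross (f : Fin N → (Fin t × W t n → Fin 4)) (g h : Fin G) (lam : Lab c n2 N) (l : Fin t)
    (x : X t n c n2 N G) : Prop :=
  f lam.1 (l, (x.1 l).1) = (x.1 l).2 ∨
    (Win l x.1 ∧ (∀ m, f lam.1 (m, (x.1 m).1) ≠ (x.1 m).2) ∧ bad g h lam.2 (x.2.1 g).2)

/-- The side of the box `b` at the coordinate `i`. -/
def side (f : Fin N → (Fin t × W t n → Fin 4)) (b : BX t n c n2 N G) (i : Fin G × Fin t) :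
    Set (X t n c n2 N G) :=
  {x | if i.1 = b.1 then (if i.2 = b.2.1 then x = b.2.2 else x.1 i.2 = b.2.2.1 i.2)
    else ¬ cross f b.1 i.1 (b.2.2.2.1 i.1) i.2 x}

theorem side_own_own {f : Fin N → (Fin t × W t n → Fin 4)} {b : BX t n c n2 N G} {k : Fin t}
    {x : X t n c n2 N G} (hk : k = b.2.1) : x ∈ side f b (b.1, k) ↔ x = b.2.2 := by
  simp [side, hk]

theorem side_own_ne {f : Fin N → (Fin t × W t n → Fin 4)} {b : BX t n c n2 N G} {k : Fin t}
    {x : X t n c n2 N G} (hk : k ≠ b.2.1) : x ∈ side f b (b.1, k) ↔ x.1 k = b.2.2.1 k := by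
  simp [side, hk]

theorem side_other {f : Fin N → (Fin t × W t n → Fin 4)} {b : BX t n c n2 N G} {h : Fin G}
    {k : Fin t} {x : X t n c n2 N G} (hh : h ≠ b.1) :
    x ∈ side f b (h, k) ↔ ¬ cross f b.1 h (b.2.2.2.1 h) k x := by
  simp [side, hh]

theorem side_own_imp {f : Fin N → (Fin t × W t n → Fin 4)} {b : BX t n c n2 N G} {k : Fin t}
    {x : X t n c n2 N G} (hx : x ∈ side f b (b.1, k)) : x.1 k = b.2.2.1 k := by
  by_cases hk : k = b.2.1
  · rw [side_own_own hk] at hx; rw [hx]
  · rwa [side_own_ne hk] at hx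

theorem side_nonempty (f : Fin N → (Fin t × W t n → Fin 4)) (hc : 1 ≤ c) (hn2 : 2 ≤ n2)
    (hn : 1 ≤ n) (b : BX t n c n2 N G) (i : Fin G × Fin t) : (side f b i).Nonempty := by
  obtain ⟨h, l⟩ := i
  by_cases hh : h = b.1
  · subst hh
    refine ⟨b.2.2, ?_⟩
    by_cases hl : l = b.2.1
    · rw [side_own_own hl]
    · rw [side_own_ne hl]
  · set lam := b.2.2.2.1 h with hlam
    have hn0 : 0 < n := hn
    -- a label that is not excluded
    have hw : ∃ w' : W c n2, ¬ bad b.1 h lam.2 w' := by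
      unfold bad
      by_cases hlt : b.1 < h
      · simp only [if_pos hlt, not_not]
        have : ∀ i : Fin c, ∃ v : Fin n2, lam.2.1 i ≠ v := by
          intro i
          by_cases h0 : lam.2.1 i = ⟨0, by omega⟩
          · refine ⟨⟨1, by omega⟩, ?_⟩
            rw [h0]
            intro he
            exact absurd (Fin.mk.inj he) (by omega)
          · exact ⟨_, h0⟩
        choose q hq using this
        exact ⟨(q, q), hq⟩
      · simp only [if_neg hlt]
        refine ⟨(lam.2.2, lam.2.2), fun hD => ?_⟩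
        exact hD ⟨0, hc⟩ rfl
    obtain ⟨w', hw'⟩ := hw
    let w0 : W t n := (fun _ => ⟨0, hn0⟩, fun _ => ⟨0, hn0⟩)
    refine ⟨(fun m => (w0, f lam.1 (m, w0) + 1), fun _ => (lam.1, w'), true), ?_⟩
    rw [side_other hh]
    rintro (h1 | h1)
    · simp only at h1
      have : ∀ a : Fin 4, a ≠ a + 1 := by decide
      exact this _ h1
    · exact hw' h1.2.2

theorem side_ne_univ (f : Fin N → (Fin t × W t n → Fin 4)) 
    (hn : 1 ≤ n) (b : BX t n c n2 N G) (i : Fin G × Fin t) : side f b i ≠ Set.univ := by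
  obtain ⟨h, l⟩ := i
  have hn0 : 0 < n := hn
  by_cases hh : h = b.1
  · subst hh
    intro hu
    by_cases hl : l = b.2.1
    · have hx : (b.2.2.1, b.2.2.2.1, !b.2.2.2.2) ∈ side f b (b.1, l) := by rw [hu]; trivial
      rw [side_own_own hl] at hx
      have := congrArg (fun z => z.2.2) hx
      simp at this
    · have hx : (fun m => ((b.2.2.1 m).1, (b.2.2.1 m).2 + 1), b.2.2.2.1, b.2.2.2.2) ∈
          side f b (b.1, l) := by rw [hu]; trivial
      rw [side_own_ne hl] at hx
      have h2 := congrArg Prod.snd hx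
      simp only at h2
      have : ∀ a : Fin 4, a + 1 ≠ a := by decide
      exact this _ h2
  · intro hu
    set lam := b.2.2.2.1 h with hlam
    let w0 : W t n := (fun _ => ⟨0, hn0⟩, fun _ => ⟨0, hn0⟩)
    have hx : (fun m => (w0, f lam.1 (m, w0)), b.2.2.2.1, true) ∈ side f b (h, l) := by
      rw [hu]; trivial
    rw [side_other hh] at hx
    apply hx
    left
    rfl

/-- Two boxes of different groups are disjoint. -/
theorem disjoint_groups (f : Fin N → (Fin t × W t n → Fin 4)) (b b' : BX t n c n2 N G)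
    (hb : Win b.2.1 b.2.2.1) (hb' : Win b'.2.1 b'.2.2.1) (hg : b.1 ≠ b'.1)
    (x : Fin G × Fin t → X t n c n2 N G) (h1 : ∀ i, x i ∈ side f b i)
    (h2 : ∀ i, x i ∈ side f b' i) : False := by
  have key : ∀ (b b' : BX t n c n2 N G), Win b'.2.1 b'.2.2.1 → b.1 ≠ b'.1 →
      (∀ i, x i ∈ side f b i) → (∀ i, x i ∈ side f b' i) →
      ¬ bad b.1 b'.1 (b.2.2.2.1 b'.1).2 (b'.2.2.2.1 b.1).2 := by
    intro b b' hb' hg h1 h2 hbad
    have hm : ∀ m, (x (b'.1, m)).1 m = b'.2.2.1 m := fun m => side_own_imp (h2 (b'.1, m))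
    have he : ∀ m, f (b.2.2.2.1 b'.1).1 (m, (b'.2.2.1 m).1) ≠ (b'.2.2.1 m).2 := by
      intro m hcon
      have := h1 (b'.1, m)
      rw [side_other (Ne.symm hg)] at this
      apply this
      left
      rw [hm m]
      exact hcon
    have hx : x (b'.1, b'.2.1) = b'.2.2 := (side_own_own rfl).1 (h2 (b'.1, b'.2.1))
    have := h1 (b'.1, b'.2.1)
    rw [side_other (Ne.symm hg)] at this
    apply this
    right
    rw [hx]
    exact ⟨hb', he, hbad⟩
  rcases bad_or b.1 b'.1 hg (b.2.2.2.1 b'.1).2 (b'.2.2.2.1 b.1).2 with h | h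
  · exact key b b' hb' hg h1 h2 h
  · exact key b' b hb (Ne.symm hg) h2 h1 h

theorem boxes_disjoint (f : Fin N → (Fin t × W t n → Fin 4)) (b b' : BX t n c n2 N G)
    (hb : Win b.2.1 b.2.2.1) (hb' : Win b'.2.1 b'.2.2.1) (hne : b ≠ b')
    (x : Fin G × Fin t → X t n c n2 N G) (h1 : ∀ i, x i ∈ side f b i)
    (h2 : ∀ i, x i ∈ side f b' i) : False := by
  by_cases hg : b.1 = b'.1
  · by_cases hk : b.2.1 = b'.2.1
    · have e1 : x (b.1, b.2.1) = b.2.2 := (side_own_own rfl).1 (h1 (b.1, b.2.1))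
      have e2 : x (b'.1, b'.2.1) = b'.2.2 := (side_own_own rfl).1 (h2 (b'.1, b'.2.1))
      rw [hg, hk, e2] at e1
      exact hne (Prod.ext hg (Prod.ext hk e1.symm))
    · have hτ : b.2.2.1 = b'.2.2.1 := by
        funext m
        have e1 := side_own_imp (h1 (b.1, m))
        have e2 := side_own_imp (h2 (b'.1, m))
        rw [← e1, ← e2, hg]
      rw [hτ] at hb
      exact hk (win_unique hb hb')
  · exact disjoint_groups f b b' hb hb' hg x h1 h2

/-- Piercing: for every line there are two boxes meeting it. -/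
theorem pierce {R : ℕ} (hn : t < n) (hc : 2 * R - 1 ≤ c) (hn2 : c < n2)
    (f : Fin N → (Fin t × W t n → Fin 4)) (hf : ∀ T, ∃ i, Good R T (f i))
    (i : Fin G × Fin t) (z : Fin G × Fin t → X t n c n2 N G) :
    ∃ b b' : BX t n c n2 N G, b ≠ b' ∧ Win b.2.1 b.2.2.1 ∧ Win b'.2.1 b'.2.2.1 ∧
      (∀ j, j ≠ i → z j ∈ side f b j) ∧ (∀ j, j ≠ i → z j ∈ side f b' j) := by
  obtain ⟨g, k⟩ := i
  -- the own block vector
  obtain ⟨v, hv⟩ := exists_win hn k (fun l => (z (g, l)).1 l)
  set τ := Function.update (fun l => (z (g, l)).1 l) k v with hτ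
  -- the labels
  have hlab : ∀ h : Fin G, ∃ lam : Lab c n2 N, h ≠ g → ∀ l, ¬ cross f g h lam l (z (h, l)) := by
    intro h
    obtain ⟨i, hi1, hi2⟩ := hf (fun l => (z (h, l)).1)
    set L := (univ.filter (fun l : Fin t =>
      Win l ((fun l => (z (h, l)).1) l) ∧
        ∀ m, f i (m, ((fun l => (z (h, l)).1) l m).1) ≠ ((fun l => (z (h, l)).1) l m).2)) with hL
    have hLc : L.card ≤ c := hi2.trans hc
    obtain ⟨w, hw1, hw2⟩ := exists_W hn2 L L hLc hLc (fun l => ((z (h, l)).2.1 g).2)
    refine ⟨(i, w), fun hhg l hcr => ?_⟩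
    rcases hcr with h1 | ⟨h1, h2, h3⟩
    · exact hi1 l h1
    · have hl : l ∈ L := by
        simp only [hL, mem_filter, mem_univ, true_and]
        exact ⟨h1, h2⟩
      unfold bad at h3
      split_ifs at h3 with hlt
      · exact h3 (hw1 l hl)
      · exact hw2 l hl h3
  choose lam hlam using hlab
  have hmain : ∀ s : Bool, ∀ j, j ≠ (g, k) → z j ∈ side f (g, k, τ, lam, s) j := by
    intro s j hj
    obtain ⟨h, l⟩ := j
    by_cases hh : h = g
    · subst hh
      have hl : l ≠ k := fun e => hj (by rw [e])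
      have := (side_own_ne (f := f) (b := (h, k, τ, lam, s)) (k := l) (x := z (h, l)) hl).2
      apply this
      simp only [hτ, Function.update_of_ne hl]
    · have := (side_other (f := f) (b := (g, k, τ, lam, s)) (k := l) (h := h) (x := z (h, l)) hh).2
      apply this
      exact hlam h hh l
  refine ⟨(g, k, τ, lam, true), (g, k, τ, lam, false), ?_, hv, hv, hmain true, hmain false⟩
  intro he
  have := congrArg (fun b => b.2.2.2.2) he
  simp at this

end Pool.Agent.H30.Boxes
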