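import Pool.Agent.H30.Boxes.Hit

/-!
The block structure: two vectors per vertex, the relation `D`, the tournament `Beat`, and the
sets `Win k` of block vectors in which `k` beats everybody.
-/

set_option autoImplicit false

namespace Pool.Agent.H30.Boxes

open Finset Classical

/-- A vertex: two vectors of length `s` over an alphabet of size `n`. -/
abbrev W (s n : ℕ) : Type := (Fin s → Fin n) × (Fin s → Fin n)

/-- `w` is everywhere different from `w'` (first vector against second vector). -/
def D {s n : ℕ} (w w' : W s n) : Prop := ∀ i, w.1 i ≠ w'.2 i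

theorem exists_W {s n : ℕ} (h : s < n) {α : Type} (A B : Finset α) (hA : A.card ≤ s)
    (hB : B.card ≤ s) (f : α → W s n) :
    ∃ w : W s n, (∀ a ∈ A, D w (f a)) ∧ (∀ b ∈ B, ¬ D (f b) w) := by
  have h1 : ∀ i : Fin s, ∃ v : Fin n, ∀ a ∈ A, v ≠ (f a).2 i := by
    intro i
    have hc : (A.image (fun a => (f a).2 i)).card < Fintype.card (Fin n) := by
      rw [Fintype.card_fin]
      exact (Finset.card_image_le.trans hA).trans_lt h
    obtain ⟨v, hv⟩ : ∃ v, v ∉ A.image (fun a => (f a).2 i) := by
      by_contra hcon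
      push Not at hcon
      have : (A.image (fun a => (f a).2 i)) = univ := by
        ext v; simp [hcon v]
      rw [this, Finset.card_univ] at hc
      exact lt_irrefl _ hc
    refine ⟨v, fun a ha hva => hv ?_⟩
    rw [hva]
    exact Finset.mem_image_of_mem _ ha
  choose p hp using h1
  have hn : 0 < n := by omega
  let q : Fin s → Fin n := fun i =>
    if hi : i.1 < B.card then (f (B.equivFin.symm ⟨i.1, hi⟩).1).1 i else ⟨0, hn⟩
  refine ⟨(p, q), fun a ha i => hp i a ha, fun b hb hD => ?_⟩
  have hlt : (B.equivFin ⟨b, hb⟩).1 < B.card := (B.equivFin ⟨b, hb⟩).2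
  have := hD ⟨(B.equivFin ⟨b, hb⟩).1, hlt.trans_le hB⟩
  apply this
  simp [q, hlt]

/-- `k` beats `l` in the vertex assignment `σ`. -/
def Beat {t s n : ℕ} (σ : Fin t → W s n) (k l : Fin t) : Prop :=
  if k < l then D (σ k) (σ l) else ¬ D (σ l) (σ k)

theorem beat_comm {t s n : ℕ} (σ : Fin t → W s n) {k l : Fin t} (h : k ≠ l) :
    Beat σ k l ↔ ¬ Beat σ l k := by
  unfold Beat
  rcases lt_or_gt_of_ne h with h1 | h1
  · simp [h1, not_lt_of_gt h1]
  · simp [h1, not_lt_of_gt h1]

/-- A block: a vertex with a colour. -/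
abbrev V (s n : ℕ) : Type := W s n × Fin 4

/-- The vertex part of a block vector. -/
def base {t s n : ℕ} (τ : Fin t → V s n) : Fin t → W s n := fun m => (τ m).1

/-- Player `k` beats everybody. -/
def Win {t s n : ℕ} (k : Fin t) (τ : Fin t → V s n) : Prop :=
  ∀ l, l ≠ k → Beat (base τ) k l

theorem win_unique {t s n : ℕ} {k l : Fin t} {τ : Fin t → V s n} (h1 : Win k τ) (h2 : Win l τ) :
    k = l := by
  by_contra hne
  have a := h1 l (Ne.symm hne)
  have b := h2 k hne
  rw [beat_comm _ hne] at a
  exact a b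

theorem exists_win {t n : ℕ} (h : t < n) (k : Fin t) (x : Fin t → V t n) :
    ∃ v, Win k (Function.update x k v) := by
  obtain ⟨w, hA, hB⟩ := exists_W h (univ.filter (fun l : Fin t => k < l))
    (univ.filter (fun l : Fin t => l < k))
    ((Finset.card_le_univ _).trans (by simp)) ((Finset.card_le_univ _).trans (by simp))
    (fun l => (x l).1)
  refine ⟨(w, 0), fun l hl => ?_⟩
  unfold Beat base
  rcases lt_or_gt_of_ne hl with h1 | h1
  · rw [if_neg (not_lt_of_gt h1)]
    have := hB l (by simp [h1])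
    simpa [Function.update_of_ne hl] using this
  · rw [if_pos h1]
    have := hA l (by simp [h1])
    simpa [Function.update_of_ne hl] using this

/-- If `k` wins `τ`, agrees with `σ` at `k`, and does not beat `m` in `σ`, then `τ m ≠ σ m`. -/
theorem win_ne {t s n : ℕ} {k m : Fin t} {τ : Fin t → V s n} {σ : Fin t → W s n}
    (h : Win k τ) (hk : (τ k).1 = σ k) (hm : m ≠ k) (hb : ¬ Beat σ k m) : (τ m).1 ≠ σ m := by
  intro he
  apply hb
  have := h m hm
  unfold Beat base at this
  unfold Beat
  rwa [hk, he] at this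

/-- The number of players who fail to beat fewer than `R` others is at most `2R-1`. -/
theorem card_near {t s n : ℕ} (σ : Fin t → W s n) (R : ℕ) (hR : 1 ≤ R) :
    (univ.filter (fun l : Fin t =>
      (univ.filter (fun m : Fin t => m ≠ l ∧ ¬ Beat σ l m)).card < R)).card ≤ 2 * R - 1 := by
  set J := (univ.filter (fun l : Fin t =>
      (univ.filter (fun m : Fin t => m ≠ l ∧ ¬ Beat σ l m)).card < R)) with hJ
  -- pairs in J where the first does not beat the second
  have h1 : (J.offDiag.filter (fun p => ¬ Beat σ p.1 p.2)).card =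
      (J.offDiag.filter (fun p => Beat σ p.1 p.2)).card := by
    apply Finset.card_bij (fun p _ => (p.2, p.1))
    · rintro ⟨a, b⟩ hp
      simp only [mem_filter, mem_offDiag] at hp ⊢
      refine ⟨⟨hp.1.2.1, hp.1.1, Ne.symm hp.1.2.2⟩, ?_⟩
      rw [beat_comm σ (Ne.symm hp.1.2.2)]
      exact hp.2
    · rintro ⟨a, b⟩ _ ⟨c, d⟩ _ he
      simp only [Prod.mk.injEq] at he
      rw [he.1, he.2]
    · rintro ⟨a, b⟩ hp
      simp only [mem_filter, mem_offDiag] at hp
      refine ⟨(b, a), ?_, rfl⟩
      simp only [mem_filter, mem_offDiag]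
      refine ⟨⟨hp.1.2.1, hp.1.1, Ne.symm hp.1.2.2⟩, ?_⟩
      rw [← beat_comm σ hp.1.2.2]
      exact hp.2
  have h2 : (J.offDiag.filter (fun p => Beat σ p.1 p.2)).card +
      (J.offDiag.filter (fun p => ¬ Beat σ p.1 p.2)).card = J.card * J.card - J.card := by
    rw [Finset.card_filter_add_card_filter_not, Finset.offDiag_card]
  have h3 : (J.offDiag.filter (fun p => ¬ Beat σ p.1 p.2)).card ≤ J.card * (R - 1) := by
    have hsub : (J.offDiag.filter (fun p => ¬ Beat σ p.1 p.2)) ⊆
        J.biUnion (fun l => (univ.filter (fun m : Fin t => m ≠ l ∧ ¬ Beat σ l m)).image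
          (fun m => (l, m))) := by
      rintro ⟨a, b⟩ hp
      simp only [mem_filter, mem_offDiag] at hp
      simp only [mem_biUnion, mem_image, mem_filter, mem_univ, true_and]
      exact ⟨a, hp.1.1, b, ⟨Ne.symm hp.1.2.2, hp.2⟩, rfl⟩
    refine (Finset.card_le_card hsub).trans (Finset.card_biUnion_le.trans ?_)
    calc ∑ l ∈ J, ((univ.filter (fun m : Fin t => m ≠ l ∧ ¬ Beat σ l m)).image
          (fun m => (l, m))).card ≤ ∑ _l ∈ J, (R - 1) := by
          apply Finset.sum_le_sum
          intro l hl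
          refine Finset.card_image_le.trans ?_
          simp only [hJ, mem_filter, mem_univ, true_and] at hl
          omega
      _ = J.card * (R - 1) := by simp
  by_contra hcon
  push Not at hcon
  obtain ⟨j, hj⟩ : ∃ j, J.card = j := ⟨_, rfl⟩
  rw [hj] at h2 h3 hcon
  have h4 : j * j - j ≤ 2 * (j * (R - 1)) := by omega
  obtain ⟨i, rfl⟩ : ∃ i, j = i + 1 := ⟨j - 1, by omega⟩
  have h5 : (i + 1) * (i + 1) - (i + 1) = (i + 1) * i := by
    rw [Nat.sub_eq_iff_eq_add (by nlinarith)]
    ring
  rw [h5] at h4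
  have h6 : (i + 1) * i ≤ (i + 1) * (2 * (R - 1)) := by
    calc _ ≤ _ := h4
      _ = _ := by ring
  have h7 := Nat.le_of_mul_le_mul_left h6 (by omega)
  omega

end Pool.Agent.H30.Boxes
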