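import Pool.Agent.H30.Boxes.Asm

/-!
Transfer to `Fin`, and the numbers.
-/

set_option autoImplicit false

namespace Pool.Agent.H30.Boxes

open Finset Classical

/-- The frozen conjecture, as a proposition. -/
def Conj : Prop := ∀ (n d k m : ℕ), 1 ≤ d → 2 ≤ k → k ≤ n →
      ∀ (S : Fin m → Fin d → Finset (Fin n)),
        (∀ j i, (S j i).Nonempty ∧ S j i ≠ Finset.univ) →
        (∀ j j', j ≠ j' → ∀ x : Fin d → Fin n,
          ¬ ((∀ l, x l ∈ S j l) ∧ (∀ l, x l ∈ S j' l))) →
        (∀ (i : Fin d) (x : Fin d → Fin n),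
          k ≤ (Finset.univ.filter
            (fun j : Fin m => ∃ t : Fin n, ∀ l : Fin d, Function.update x i t l ∈ S j l)).card) →
        2 ^ d ≤ m

/-- A family indexed by finite types gives a bound from the conjecture. -/
theorem transfer (hconj : Conj) {ι Y J : Type} [Fintype ι] [Fintype Y] [Fintype J]
    (S : J → ι → Set Y) (hι : 1 ≤ Fintype.card ι) (hY : 2 ≤ Fintype.card Y)
    (hne : ∀ j i, (S j i).Nonempty) (hpr : ∀ j i, S j i ≠ Set.univ)
    (hdisj : ∀ j j', j ≠ j' → ∀ x : ι → Y, ¬ ((∀ l, x l ∈ S j l) ∧ (∀ l, x l ∈ S j' l)))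
    (hpier : ∀ (i : ι) (x : ι → Y), ∃ j j', j ≠ j' ∧ (∀ l, l ≠ i → x l ∈ S j l) ∧
      (∀ l, l ≠ i → x l ∈ S j' l)) :
    2 ^ Fintype.card ι ≤ Fintype.card J := by
  let eι := Fintype.equivFin ι
  let eY := Fintype.equivFin Y
  let eJ := Fintype.equivFin J
  let S' : Fin (Fintype.card J) → Fin (Fintype.card ι) → Finset (Fin (Fintype.card Y)) :=
    fun j i => univ.filter (fun y => eY.symm y ∈ S (eJ.symm j) (eι.symm i))
  have hmem : ∀ j i y, y ∈ S' j i ↔ eY.symm y ∈ S (eJ.symm j) (eι.symm i) := by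
    intro j i y; simp [S']
  apply hconj (Fintype.card Y) (Fintype.card ι) 2 (Fintype.card J) hι le_rfl hY S'
  · intro j i
    constructor
    · obtain ⟨y, hy⟩ := hne (eJ.symm j) (eι.symm i)
      exact ⟨eY y, by rw [hmem]; simpa using hy⟩
    · intro hu
      apply hpr (eJ.symm j) (eι.symm i)
      ext y
      simp only [Set.mem_univ, iff_true]
      have : eY y ∈ S' j i := by rw [hu]; exact mem_univ _
      rw [hmem] at this
      simpa using this
  · intro j j' hjj x hx
    apply hdisj (eJ.symm j) (eJ.symm j') (fun h => hjj (eJ.symm.injective h))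
      (fun i => eY.symm (x (eι i)))
    constructor
    · intro l
      have := hx.1 (eι l)
      rw [hmem] at this
      simpa using this
    · intro l
      have := hx.2 (eι l)
      rw [hmem] at this
      simpa using this
  · intro i x
    obtain ⟨j, j', hjj, h1, h2⟩ := hpier (eι.symm i) (fun l => eY.symm (x (eι l)))
    have hin : ∀ j : J, (∀ l, l ≠ eι.symm i → eY.symm (x (eι l)) ∈ S j l) →
        eJ j ∈ (Finset.univ.filter
            (fun j : Fin (Fintype.card J) => ∃ t : Fin (Fintype.card Y),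
              ∀ l : Fin (Fintype.card ι), Function.update x i t l ∈ S' j l)) := by
      intro j hj
      simp only [mem_filter, mem_univ, true_and]
      obtain ⟨y, hy⟩ := hne j (eι.symm i)
      refine ⟨eY y, fun l => ?_⟩
      by_cases hl : l = i
      · subst hl
        rw [Function.update_self, hmem]
        simpa using hy
      · rw [Function.update_of_ne hl, hmem]
        have := hj (eι.symm l) (fun h => hl (eι.symm.injective h))
        simpa using this
    have hcard : ({eJ j, eJ j'} : Finset (Fin (Fintype.card J))).card = 2 := by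
      rw [Finset.card_pair (fun h => hjj (eJ.injective h))]
    have hsub : ({eJ j, eJ j'} : Finset (Fin (Fintype.card J))) ⊆ (Finset.univ.filter
            (fun j : Fin (Fintype.card J) => ∃ t : Fin (Fintype.card Y),
              ∀ l : Fin (Fintype.card ι), Function.update x i t l ∈ S' j l)) := by
      intro a ha
      simp only [mem_insert, mem_singleton] at ha
      rcases ha with rfl | rfl
      · exact hin j h1
      · exact hin j' h2
    have h3 := Finset.card_le_card hsub
    rw [hcard] at h3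
    convert h3

/-- The general bound refuting the conjecture. -/
theorem bound_of_conj (hconj : Conj) (t n c n2 R a K G : ℕ) (hG : 1 ≤ G) (ht : 1 ≤ t)
    (hn : t < n) (hR : 1 ≤ R) (hc : 2 * R - 1 ≤ c) (hc1 : 1 ≤ c) (hn2 : c < n2)
    (h : 2 * t * 3 ^ R ≤ 4 ^ R) (ha : 2 * 4 ^ t ≤ a * 3 ^ t) (ha1 : 1 ≤ a)
    (hK : Fintype.card (Fin t → Fin t → V t n) < 2 ^ K) :
    2 ^ (G * t) ≤ Fintype.card (BX t n c n2 (a * K) G) := by
  obtain ⟨f, hf⟩ := exists_family (t := t) (n := n) R a K hR h ha ha1 hK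
  let J := {b : BX t n c n2 (a * K) G // Win b.2.1 b.2.2.1}
  have h1 := transfer hconj (ι := Fin G × Fin t) (Y := X t n c n2 (a * K) G) (J := J)
    (fun b i => side f b.1 i) (by simp; exact Nat.mul_pos hG ht)
    (by
      obtain ⟨i, _⟩ := hf (fun _ _ => ((fun _ => ⟨0, by omega⟩, fun _ => ⟨0, by omega⟩), 0))
      have : Nontrivial (X t n c n2 (a * K) G) := by
        refine ⟨(fun _ => ((fun _ => ⟨0, by omega⟩, fun _ => ⟨0, by omega⟩), 0),
          fun _ => (i, (fun _ => ⟨0, by omega⟩, fun _ => ⟨0, by omega⟩)), true),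
          (fun _ => ((fun _ => ⟨0, by omega⟩, fun _ => ⟨0, by omega⟩), 0),
          fun _ => (i, (fun _ => ⟨0, by omega⟩, fun _ => ⟨0, by omega⟩)), false), ?_⟩
        intro he
        have := congrArg (fun z => z.2.2) he
        simp at this
      exact Fintype.one_lt_card)
    (fun b i => side_nonempty f hc1 (by omega) (by omega) b.1 i)
    (fun b i => side_ne_univ f (by omega) b.1 i)
    (fun b b' hbb x hx => boxes_disjoint f b.1 b'.1 b.2 b'.2 (fun e => hbb (Subtype.ext e)) x
      hx.1 hx.2)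
    (fun i z => by
      obtain ⟨b, b', hbb, hw, hw', h1, h2⟩ := pierce hn hc hn2 f hf i z
      exact ⟨⟨b, hw⟩, ⟨b', hw'⟩, fun e => hbb (congrArg Subtype.val e), h1, h2⟩)
  have h2 : Fintype.card J ≤ Fintype.card (BX t n c n2 (a * K) G) := Fintype.card_subtype_le _
  have h3 : Fintype.card (Fin G × Fin t) = G * t := by simp
  rw [h3] at h1
  exact h1.trans h2

theorem card_V (t n : ℕ) : Fintype.card (V t n) = (n ^ t * n ^ t) * 4 := by
  simp [V, W]

theorem card_Lab (c n2 N : ℕ) : Fintype.card (Lab c n2 N) = N * (n2 ^ c * n2 ^ c) := by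
  simp [Lab, W]

theorem card_X (t n c n2 N G : ℕ) : Fintype.card (X t n c n2 N G) =
    Fintype.card (V t n) ^ t * (Fintype.card (Lab c n2 N) ^ G * 2) := by
  simp [X]

theorem card_BX (t n c n2 N G : ℕ) : Fintype.card (BX t n c n2 N G) =
    G * (t * Fintype.card (X t n c n2 N G)) := by
  simp only [BX, Fintype.card_prod, Fintype.card_fin]

/-- The same with all sizes powers of two. -/
theorem numbers (hconj : Conj) (t n c n2 R a K G eV eL eG et ea : ℕ) (hG : 1 ≤ G) (ht : 1 ≤ t)
    (hn : t < n) (hR : 1 ≤ R) (hc : 2 * R - 1 ≤ c) (hc1 : 1 ≤ c) (hn2 : c < n2)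
    (h : 2 * t * 3 ^ R ≤ 4 ^ R) (ha : 2 * 4 ^ t ≤ a * 3 ^ t) (ha1 : 1 ≤ a)
    (hV : Fintype.card (V t n) = 2 ^ eV) (hK : eV * (t * t) < K)
    (hL : a * K * (n2 ^ c * n2 ^ c) ≤ 2 ^ eL) (hGe : G ≤ 2 ^ eG) (hte : t ≤ 2 ^ et)
    (hea : eG + (et + (eV * t + (eL * G + 1))) < ea) : 2 ^ (G * t) < 2 ^ ea := by
  have hb := bound_of_conj hconj t n c n2 R a K G hG ht hn hR hc hc1 hn2 h ha ha1
    (by
      rw [Fintype.card_fun, Fintype.card_fun, Fintype.card_fin, hV, ← pow_mul, ← pow_mul]
      exact Nat.pow_lt_pow_right (by norm_num) hK)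
  refine lt_of_le_of_lt hb ?_
  rw [card_BX, card_X, card_Lab, hV]
  calc G * (t * ((2 ^ eV) ^ t * ((a * K * (n2 ^ c * n2 ^ c)) ^ G * 2)))
      ≤ 2 ^ eG * (2 ^ et * ((2 ^ eV) ^ t * ((2 ^ eL) ^ G * 2))) := by
        gcongr
    _ = 2 ^ (eG + (et + (eV * t + (eL * G + 1)))) := by
        rw [pow_add, pow_add, pow_add, pow_add, pow_mul, pow_mul, pow_one]
    _ < 2 ^ ea := Nat.pow_lt_pow_right (by norm_num) hea

set_option exponentiation.threshold 5000 in
theorem not_conj : ¬ Conj := by
  intro hconj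
  have hVc : Fintype.card (V 2048 4096) = 2 ^ 49154 := by
    rw [card_V]
    have : (4096 : ℕ) = 2 ^ 12 := by norm_num
    rw [this, ← pow_mul, ← pow_add]
    have : (4 : ℕ) = 2 ^ 2 := by norm_num
    rw [this, ← pow_add]
  have hb := numbers hconj 2048 4096 63 64 32 (2 ^ 852) (2 ^ 38) (2 ^ 20) 49154 1646 20 11
    (2 ^ 20 * 2048)
    (by norm_num) (by norm_num) (by norm_num) (by norm_num) (by norm_num) (by norm_num)
    (by norm_num) (by norm_num) (by norm_num) (by norm_num) hVc (by norm_num)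
    (by
      have : (64 : ℕ) = 2 ^ 6 := by norm_num
      rw [this, ← pow_mul, ← pow_add, ← pow_add, ← pow_add])
    le_rfl (by norm_num) (by norm_num)
  exact lt_irrefl _ hb

end Pool.Agent.H30.Boxes
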