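import Pool.Agent.H30.Boxes.Block

/-!
Colourings: most colourings that do not exclude the diagonal blocks exclude the block vectors of
all players that fail to beat many others; a small family of colourings passes all tests.
-/

set_option autoImplicit false

namespace Pool.Agent.H30.Boxes

open Finset Classical

/-- The colouring `ω` passes the test `T`. -/
def Good {t n : ℕ} (R : ℕ) (T : Fin t → Fin t → V t n) (ω : Fin t × W t n → Fin 4) : Prop :=
  (∀ m, ω (m, (T m m).1) ≠ (T m m).2) ∧
  (univ.filter (fun l : Fin t =>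
    Win l (T l) ∧ ∀ m, ω (m, (T l m).1) ≠ (T l m).2)).card ≤ 2 * R - 1

theorem good_count {t n : ℕ} (R : ℕ) (hR : 1 ≤ R) (h : 2 * t * 3 ^ R ≤ 4 ^ R)
    (T : Fin t → Fin t → V t n) :
    3 ^ t * Fintype.card (Fin t × W t n → Fin 4) ≤
      2 * 4 ^ t * (univ.filter (fun ω => Good R T ω)).card := by
  set Q : Finset (Fin t × W t n) := univ.image (fun m : Fin t => (m, (T m m).1)) with hQ
  have hQc : Q.card = t := by
    rw [hQ, Finset.card_image_of_injective, Finset.card_univ, Fintype.card_fin]
    intro a b hab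
    exact (Prod.mk.inj hab).1
  let F : Fin t × W t n → Fin 4 := fun i => (T i.1 i.1).2
  set U := (univ.filter (fun ω : Fin t × W t n → Fin 4 => ∀ i ∈ Q, ω i ≠ F i)) with hU
  have hUmem : ∀ ω, ω ∈ U ↔ ∀ m, ω (m, (T m m).1) ≠ (T m m).2 := by
    intro ω
    rw [hU, hQ]
    simp only [mem_filter, mem_univ, true_and, mem_image, forall_exists_index,
      forall_apply_eq_imp_iff, F]
  have hUc : 4 ^ t * U.card = 3 ^ t * Fintype.card (Fin t × W t n → Fin 4) := by
    have := card_avoid_rel ∅ Q (Finset.disjoint_empty_left _) F F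
    rw [hQc] at this
    simpa [hU] using this
  let σ : Fin t → W t n := fun m => (T m m).1
  let M : Fin t → Finset (Fin t) := fun l => univ.filter (fun m : Fin t => m ≠ l ∧ ¬ Beat σ l m)
  set Far : Finset (Fin t) := univ.filter (fun l => R ≤ (M l).card ∧ Win l (T l)) with hFar
  let Bad : Fin t → Finset (Fin t × W t n → Fin 4) := fun l =>
    U.filter (fun ω => ∀ m, ω (m, (T l m).1) ≠ (T l m).2)
  have hBad : ∀ l ∈ Far, 4 ^ R * (Bad l).card ≤ 3 ^ R * U.card := by
    intro l hl
    simp only [hFar, mem_filter, mem_univ, true_and] at hl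
    obtain ⟨M', hM', hMc⟩ := Finset.exists_subset_card_eq hl.1
    set Q' : Finset (Fin t × W t n) := M'.image (fun m : Fin t => (m, (T l m).1)) with hQ'
    have hQc' : Q'.card = R := by
      rw [hQ', Finset.card_image_of_injective, hMc]
      intro a b hab
      exact (Prod.mk.inj hab).1
    have hdis : Disjoint Q Q' := by
      rw [Finset.disjoint_left]
      intro i hi hi'
      simp only [hQ, mem_image, mem_univ, true_and] at hi
      simp only [hQ', mem_image] at hi'
      obtain ⟨m, rfl⟩ := hi
      obtain ⟨m', hm', he⟩ := hi'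
      obtain ⟨rfl, he2⟩ := Prod.mk.inj he
      have hm := hM' hm'
      simp only [M, mem_filter, mem_univ, true_and] at hm
      exact win_ne (σ := σ) hl.2 rfl hm.1 hm.2 he2
    let F' : Fin t × W t n → Fin 4 := fun i => if i ∈ Q then F i else (T l i.1).2
    have hrel := card_avoid_rel Q Q' hdis F F'
    rw [hQc'] at hrel
    refine le_trans (Nat.mul_le_mul_left _ (Finset.card_le_card ?_)) hrel.le
    intro ω hω
    simp only [Bad, mem_filter] at hω
    obtain ⟨h1, h2⟩ := hω
    simp only [hU, mem_filter, mem_univ, true_and] at h1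
    simp only [mem_filter, mem_univ, true_and]
    intro i hi
    by_cases hiQ : i ∈ Q
    · simp only [F', if_pos hiQ]
      exact h1 i hiQ
    · simp only [F', if_neg hiQ]
      have hi' : i ∈ Q' := by
        rcases Finset.mem_union.1 hi with h3 | h3
        · exact absurd h3 hiQ
        · exact h3
      simp only [hQ', mem_image] at hi'
      obtain ⟨m, _, rfl⟩ := hi'
      exact h2 m
  have hcov : U ⊆ (univ.filter (fun ω => Good R T ω)) ∪ Far.biUnion Bad := by
    intro ω hω
    by_cases hb : ∃ l ∈ Far, ω ∈ Bad l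
    · exact Finset.mem_union_right _ (Finset.mem_biUnion.2 hb)
    · apply Finset.mem_union_left
      push Not at hb
      simp only [mem_filter, mem_univ, true_and]
      refine ⟨(hUmem ω).1 hω, ?_⟩
      refine le_trans (Finset.card_le_card ?_) (card_near σ R hR)
      intro l hl
      simp only [mem_filter, mem_univ, true_and] at hl ⊢
      by_contra hfar
      push Not at hfar
      have hlF : l ∈ Far := by
        simp only [hFar, mem_filter, mem_univ, true_and]
        exact ⟨hfar, hl.1⟩
      apply hb l hlF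
      simp only [Bad, mem_filter]
      exact ⟨hω, hl.2⟩
  have h1 : U.card ≤ (univ.filter (fun ω => Good R T ω)).card + ∑ l ∈ Far, (Bad l).card :=
    (Finset.card_le_card hcov).trans ((Finset.card_union_le _ _).trans
      (Nat.add_le_add_left Finset.card_biUnion_le _))
  have h2 : 4 ^ R * ∑ l ∈ Far, (Bad l).card ≤ t * (3 ^ R * U.card) := by
    rw [Finset.mul_sum]
    calc ∑ l ∈ Far, 4 ^ R * (Bad l).card ≤ ∑ _l ∈ Far, 3 ^ R * U.card :=
          Finset.sum_le_sum hBad
      _ = Far.card * (3 ^ R * U.card) := by simp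
      _ ≤ t * (3 ^ R * U.card) := by
          apply Nat.mul_le_mul_right
          exact (Finset.card_le_univ _).trans (by simp)
  have h3 : 2 * ∑ l ∈ Far, (Bad l).card ≤ U.card := by
    have h4 : 4 ^ R * (2 * ∑ l ∈ Far, (Bad l).card) ≤ 4 ^ R * U.card := by
      calc 4 ^ R * (2 * ∑ l ∈ Far, (Bad l).card) = 2 * (4 ^ R * ∑ l ∈ Far, (Bad l).card) := by ring
        _ ≤ 2 * (t * (3 ^ R * U.card)) := Nat.mul_le_mul_left _ h2
        _ = (2 * t * 3 ^ R) * U.card := by ring
        _ ≤ 4 ^ R * U.card := Nat.mul_le_mul_right _ h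
    exact Nat.le_of_mul_le_mul_left h4 (by positivity)
  have h4 : U.card ≤ 2 * (univ.filter (fun ω => Good R T ω)).card := by omega
  calc 3 ^ t * Fintype.card (Fin t × W t n → Fin 4) = 4 ^ t * U.card := hUc.symm
    _ ≤ 4 ^ t * (2 * (univ.filter (fun ω => Good R T ω)).card) := Nat.mul_le_mul_left _ h4
    _ = _ := by ring

/-- A small family of colourings passing all tests. -/
theorem exists_family {t n : ℕ} (R a K : ℕ) (hR : 1 ≤ R) (h : 2 * t * 3 ^ R ≤ 4 ^ R)
    (ha : 2 * 4 ^ t ≤ a * 3 ^ t) (ha1 : 1 ≤ a)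
    (hK : Fintype.card (Fin t → Fin t → V t n) < 2 ^ K) :
    ∃ f : Fin (a * K) → (Fin t × W t n → Fin 4), ∀ T, ∃ i, Good R T (f i) := by
  apply exists_hit (fun T ω => Good R T ω) a K ha1 Fintype.card_pos _ hK
  intro T
  have h1 := good_count R hR h T
  have h2 : 3 ^ t * Fintype.card (Fin t × W t n → Fin 4) ≤
      3 ^ t * (a * (univ.filter (fun ω => Good R T ω)).card) := by
    calc _ ≤ _ := h1
      _ ≤ a * 3 ^ t * (univ.filter (fun ω => Good R T ω)).card := Nat.mul_le_mul_right _ ha
      _ = _ := by ring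
  exact Nat.le_of_mul_le_mul_left h2 (by positivity)

end Pool.Agent.H30.Boxes
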