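import Mathlib

/-!
Finite counting tools for the boxes construction: a hitting-set lemma and the count of
colourings avoiding prescribed values.
-/

set_option autoImplicit false

namespace Pool.Agent.H30.Boxes

open Finset Classical

theorem bern (B g : ℕ) : ∀ n : ℕ, B ^ (n + 1) + (n + 1) * (B ^ n * g) ≤ (B + g) ^ (n + 1)
  | 0 => by simp
  | n + 1 => by
      have ih := bern B g n
      have h1 : (B ^ (n + 1) + (n + 1) * (B ^ n * g)) * (B + g) ≤ (B + g) ^ (n + 1) * (B + g) :=
        Nat.mul_le_mul_right _ ih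
      have h2 : B ^ (n + 1 + 1) + (n + 1 + 1) * (B ^ (n + 1) * g) ≤
          (B ^ (n + 1) + (n + 1) * (B ^ n * g)) * (B + g) := by
        have : (B ^ (n + 1) + (n + 1) * (B ^ n * g)) * (B + g) =
            B ^ (n + 1 + 1) + (n + 1 + 1) * (B ^ (n + 1) * g) + (n + 1) * (B ^ n * g) * g := by
          ring
        rw [this]
        exact Nat.le_add_right _ _
      calc _ ≤ _ := h2
        _ ≤ _ := h1
        _ = _ := by ring

/-- If `B ≤ (a-1) g` then `2 * B^a ≤ (B+g)^a`. -/
theorem two_mul_pow_le (a B g : ℕ) (ha : 1 ≤ a) (h : B + g ≤ a * g) :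
    2 * B ^ a ≤ (B + g) ^ a := by
  obtain ⟨n, rfl⟩ : ∃ n, a = n + 1 := ⟨a - 1, by omega⟩
  have h1 := bern B g n
  have h2 : B ^ (n + 1) ≤ (n + 1) * (B ^ n * g) := by
    calc B ^ (n + 1) = B ^ n * B := pow_succ _ _
      _ ≤ B ^ n * ((n + 1) * g) := Nat.mul_le_mul_left _ (by omega)
      _ = _ := by ring
  omega

/-- Hitting-set lemma: if every test is passed by a fraction at least `1/a` of `Ω` and there are
fewer than `2^K` tests, then some `a*K` elements of `Ω` pass all tests. -/
theorem exists_hit {Ω T : Type} [Fintype Ω] [Fintype T] (good : T → Ω → Prop) (a K : ℕ)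
    (ha : 1 ≤ a) (hΩ : 0 < Fintype.card Ω)
    (hgood : ∀ τ, Fintype.card Ω ≤ a * (univ.filter (fun ω => good τ ω)).card)
    (hT : Fintype.card T < 2 ^ K) :
    ∃ f : Fin (a * K) → Ω, ∀ τ, ∃ i, good τ (f i) := by
  by_contra hcon
  push Not at hcon
  have hbad : ∀ τ, 2 ^ K * (univ.filter (fun ω => ¬ good τ ω)).card ^ (a * K) ≤
      Fintype.card Ω ^ (a * K) := by
    intro τ
    have hs : (univ.filter (fun ω => ¬ good τ ω)).card + (univ.filter (fun ω => good τ ω)).card =
        Fintype.card Ω := by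
      rw [add_comm, Finset.card_filter_add_card_filter_not, Finset.card_univ]
    have h2 := two_mul_pow_le a (univ.filter (fun ω => ¬ good τ ω)).card
      (univ.filter (fun ω => good τ ω)).card ha (by rw [hs]; exact hgood τ)
    rw [hs] at h2
    calc 2 ^ K * (univ.filter (fun ω => ¬ good τ ω)).card ^ (a * K)
        = (2 * (univ.filter (fun ω => ¬ good τ ω)).card ^ a) ^ K := by
          rw [mul_pow, ← pow_mul]
      _ ≤ (Fintype.card Ω ^ a) ^ K := Nat.pow_le_pow_left h2 K
      _ = _ := by rw [← pow_mul]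
  have hcov : (univ : Finset (Fin (a * K) → Ω)) ⊆
      (univ : Finset T).biUnion (fun τ => Fintype.piFinset (fun _ : Fin (a * K) =>
        univ.filter (fun ω => ¬ good τ ω))) := by
    intro f _
    obtain ⟨τ, hτ⟩ := hcon f
    simp only [mem_biUnion, mem_univ, true_and, Fintype.mem_piFinset, mem_filter]
    exact ⟨τ, hτ⟩
  have h1 := (Finset.card_le_card hcov).trans Finset.card_biUnion_le
  have h3 : Fintype.card Ω ^ (a * K) ≤ ∑ τ : T,
      (univ.filter (fun ω => ¬ good τ ω)).card ^ (a * K) := by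
    simpa using h1
  have h4 : 2 ^ K * Fintype.card Ω ^ (a * K) ≤ Fintype.card T * Fintype.card Ω ^ (a * K) := by
    calc 2 ^ K * Fintype.card Ω ^ (a * K) ≤ 2 ^ K * ∑ τ : T,
          (univ.filter (fun ω => ¬ good τ ω)).card ^ (a * K) := Nat.mul_le_mul_left _ h3
      _ = ∑ τ : T, 2 ^ K * (univ.filter (fun ω => ¬ good τ ω)).card ^ (a * K) := by
          rw [Finset.mul_sum]
      _ ≤ ∑ _τ : T, Fintype.card Ω ^ (a * K) := Finset.sum_le_sum (fun τ _ => hbad τ)
      _ = _ := by simp
  have h5 : 0 < Fintype.card Ω ^ (a * K) := pow_pos hΩ _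
  have h6 := Nat.le_of_mul_le_mul_right h4 h5
  omega

/-- The number of `4`-colourings avoiding one prescribed colour at each point of `Q`. -/
theorem card_avoid {I : Type} [Fintype I] [DecidableEq I] (Q : Finset I) (F : I → Fin 4) :
    (univ.filter (fun ω : I → Fin 4 => ∀ i ∈ Q, ω i ≠ F i)).card =
      3 ^ Q.card * 4 ^ (Fintype.card I - Q.card) := by
  have h1 : (univ.filter (fun ω : I → Fin 4 => ∀ i ∈ Q, ω i ≠ F i)) =
      Fintype.piFinset (fun i => if i ∈ Q then (univ : Finset (Fin 4)).erase (F i) else univ) := by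
    ext ω
    simp only [mem_filter, mem_univ, true_and, Fintype.mem_piFinset]
    constructor
    · intro h i
      by_cases hi : i ∈ Q
      · simp [hi, h i hi]
      · simp [hi]
    · intro h i hi
      have := h i
      simpa [hi] using this
  rw [h1, Fintype.card_piFinset]
  have h2 : ∀ i, (if i ∈ Q then (univ : Finset (Fin 4)).erase (F i) else univ).card =
      if i ∈ Q then 3 else 4 := by
    intro i
    by_cases hi : i ∈ Q
    · simp [hi]
    · simp [hi]
  rw [Finset.prod_congr rfl (fun i _ => h2 i), Finset.prod_ite, Finset.prod_const,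
    Finset.prod_const]
  congr 2
  · congr 1
    ext; simp
  · have : (univ.filter (fun i => i ∉ Q)) = univ \ Q := by ext; simp
    rw [this, Finset.card_sdiff_of_subset (subset_univ _), Finset.card_univ]

/-- Relative form of `card_avoid`. -/
theorem card_avoid_rel {I : Type} [Fintype I] [DecidableEq I] (Q Q' : Finset I) (hd : Disjoint Q Q')
    (F F' : I → Fin 4) :
    4 ^ Q'.card * (univ.filter (fun ω : I → Fin 4 => ∀ i ∈ Q ∪ Q', ω i ≠ F' i)).card =
      3 ^ Q'.card * (univ.filter (fun ω : I → Fin 4 => ∀ i ∈ Q, ω i ≠ F i)).card := by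
  rw [card_avoid, card_avoid, Finset.card_union_of_disjoint hd]
  have h1 : (Q ∪ Q').card ≤ Fintype.card I := Finset.card_le_univ _
  rw [Finset.card_union_of_disjoint hd] at h1
  have h2 : Fintype.card I - Q.card = (Fintype.card I - (Q.card + Q'.card)) + Q'.card := by omega
  rw [h2, pow_add, pow_add]
  ring

end Pool.Agent.H30.Boxes
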